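import Pool.Agent.Helper75.JE.Mf
import Pool.Agent.Helper36.JenC

/-! Package D2 of the Jensen threshold theorem: comparison of the rescaled Jensen polynomial with `FF` -/

set_option autoImplicit false
set_option maxHeartbeats 1000000

open Complex Filter Topology Metric MeasureTheory

namespace Pool.Agent.Helper68.Smooth

open Pool.Agent.Helper75.Jen Pool.Agent.Helper75.JE Pool.Agent.Helper36.JenC

/-- the point `-τ² + 2τζ` -/
noncomputable def pt (τ : ℝ) (ζ : ℂ) : ℂ := ((-(τ ^ 2) : ℝ) : ℂ) + 2 * τ * ζ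

lemma Ph_pt (τ : ℝ) (ζ : ℂ) : Ph τ ζ = FF (pt τ ζ) := rfl

lemma Mf_nonneg (τ : ℝ) : 0 ≤ Mf τ := by unfold Mf; positivity

/-- near: Cauchy's estimate -/
lemma near_le {τ : ℝ} {ζ ζ' : ℂ} {r S : ℝ} (hr : 0 < r)
    (hS : ∀ w : ℂ, ‖w - ζ‖ ≤ r → ‖Ph τ w‖ ≤ S) (h : ‖ζ' - ζ‖ ≤ r / 2) :
    ‖Ph τ ζ' - Ph τ ζ‖ ≤ 2 * S / r * ‖ζ' - ζ‖ := by
  have hd := Ph_diff τ
  have h1 : ∀ w ∈ closedBall ζ (r / 2), ‖deriv (Ph τ) w‖ ≤ 2 * S / r := by
    intro w hw
    have h2 : ∀ v ∈ sphere w (r / 2), ‖Ph τ v‖ ≤ S := by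
      intro v hv
      apply hS
      have h3 : ‖v - ζ‖ ≤ ‖v - w‖ + ‖w - ζ‖ := norm_sub_le_norm_sub_add_norm_sub v w ζ
      rw [mem_sphere, dist_eq_norm] at hv
      rw [mem_closedBall, dist_eq_norm] at hw
      linarith
    have h4 := Complex.norm_deriv_le_of_forall_mem_sphere_norm_le (half_pos hr) hd.diffContOnCl h2
    refine h4.trans (le_of_eq ?_)
    field_simp
  exact (convex_closedBall ζ (r / 2)).norm_image_sub_le_of_norm_deriv_le
    (fun w _ => hd w) h1 (mem_closedBall_self (half_pos hr).le)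
    (by rw [mem_closedBall, dist_eq_norm]; exact h)

lemma norm_e (φ : ℝ) : ‖cexp (φ * I)‖ = 1 := Complex.norm_exp_ofReal_mul_I φ

lemma norm_e_sub (φ : ℝ) : ‖cexp (φ * I) - 1‖ ≤ |φ| := by
  have h := Real.norm_exp_I_mul_ofReal_sub_one_le (x := φ)
  rw [mul_comm, Real.norm_eq_abs] at h
  exact h

lemma norm_pt {τ R : ℝ} (hτ : 0 < τ) (hτR : 2 * R < τ) {ζ : ℂ} (hζ : ‖ζ‖ ≤ R) :
    ‖pt τ ζ‖ ≤ 2 * τ ^ 2 ∧ (pt τ ζ).re < 0 := by
  have h1 : ‖(2 * τ * ζ : ℂ)‖ = 2 * τ * ‖ζ‖ := by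
    rw [norm_mul, norm_mul, Complex.norm_real, Real.norm_of_nonneg hτ.le]
    norm_num
  have h2 : 2 * τ * ‖ζ‖ < τ ^ 2 := by nlinarith
  constructor
  · unfold pt
    refine (norm_add_le _ _).trans ?_
    rw [h1, Complex.norm_real, norm_neg, Real.norm_of_nonneg (by positivity)]
    linarith
  · unfold pt
    rw [add_re, ofReal_re]
    have h3 := (le_abs_self _).trans (Complex.abs_re_le_norm (2 * τ * ζ : ℂ))
    rw [h1] at h3
    linarith

/-- the growth away from the point -/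
lemma far_le {C τ : ℝ} (hg : ∀ v : ℂ, ‖v‖ ≤ 2 * τ →
      ‖fx v‖ ≤ Mf τ * Real.exp (C * Real.log τ * (1 + ‖v - τ * I‖)))
    (hC : 0 ≤ C) (hτ : 1 ≤ τ) {R : ℝ} (hτR : 2 * R < τ) {ζ : ℂ} (hζ : ‖ζ‖ ≤ R) (φ : ℝ) :
    ‖FF (pt τ ζ * cexp (φ * I))‖ ≤
      Mf τ * Real.exp (C * Real.log τ * (1 + 2 * R + τ * |φ|)) := by
  have hτ0 : 0 < τ := by linarith
  obtain ⟨hz1, hz2⟩ := norm_pt hτ0 hτR hζ
  set z := pt τ ζ with hz
  set w := wf z with hw
  have hw2 : w ^ 2 = z := wf_sq z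
  have him : 0 < w.im := wf_im_pos hz2
  set v := w * cexp (((φ / 2 : ℝ) : ℂ) * I) with hv
  have hv2 : v ^ 2 = z * cexp (φ * I) := by
    rw [hv, mul_pow, hw2, ← Complex.exp_nat_mul]
    congr 2
    push_cast
    ring
  rw [FF_eq hv2]
  have hwn : ‖w‖ ≤ 2 * τ := by
    have h1 : ‖w‖ ^ 2 ≤ 2 * τ ^ 2 := by rw [← norm_pow, hw2]; exact hz1
    by_contra hcon
    push Not at hcon
    nlinarith
  have hvn : ‖v‖ = ‖w‖ := by rw [hv, norm_mul, norm_e, mul_one]
  have hwi : ‖w - τ * I‖ ≤ 2 * R := by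
    have h1 : (w - τ * I) * (w + τ * I) = 2 * τ * ζ := by
      have : (w - τ * I) * (w + τ * I) = w ^ 2 + τ ^ 2 := by
        have := I_sq
        linear_combination -(τ : ℂ) ^ 2 * this
      rw [this, hw2, hz, pt]
      push_cast
      ring
    have h2 : τ ≤ ‖w + τ * I‖ := by
      refine le_trans ?_ ((le_abs_self _).trans (Complex.abs_im_le_norm _))
      simp
      linarith
    have h3 := congrArg (fun x => ‖x‖) h1
    simp only [norm_mul, Complex.norm_real, Real.norm_of_nonneg hτ0.le] at h3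
    norm_num at h3
    have h4 : ‖w - τ * I‖ * τ ≤ 2 * τ * ‖ζ‖ := by
      rw [← h3]
      exact mul_le_mul_of_nonneg_left h2 (norm_nonneg _)
    have h5 : ‖w - τ * I‖ ≤ 2 * ‖ζ‖ := by
      have : ‖w - τ * I‖ * τ ≤ (2 * ‖ζ‖) * τ := by linarith
      exact le_of_mul_le_mul_right this hτ0
    linarith
  have hvi : ‖v - τ * I‖ ≤ 2 * R + τ * |φ| := by
    have h1 : v - τ * I = w * (cexp (((φ / 2 : ℝ) : ℂ) * I) - 1) + (w - τ * I) := by
      rw [hv]; ring
    rw [h1]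
    refine (norm_add_le _ _).trans ?_
    rw [norm_mul]
    have h2 := norm_e_sub (φ / 2)
    have h3 : |φ / 2| = |φ| / 2 := by rw [abs_div]; norm_num
    rw [h3] at h2
    have h4 : ‖w‖ * ‖cexp (((φ / 2 : ℝ) : ℂ) * I) - 1‖ ≤ 2 * τ * (|φ| / 2) :=
      mul_le_mul hwn h2 (norm_nonneg _) (by positivity)
    linarith
  refine (hg v (by rw [hvn]; exact hwn)).trans ?_
  refine mul_le_mul_of_nonneg_left (Real.exp_le_exp.2 ?_) (Mf_nonneg τ)
  refine mul_le_mul_of_nonneg_left ?_ (mul_nonneg hC (Real.log_nonneg hτ))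
  linarith

/-- the representation of the difference -/
lemma diff_eq {f : ℂ → ℂ} (hf : Differentiable ℂ f) {D : ℕ} (hD : 1 ≤ D) (z : ℂ) :
    PD D f z - f z = ((D.factorial / (2 * Real.pi * D ^ D) : ℝ) : ℂ) *
      ∫ φ in (-Real.pi)..Real.pi, cexp (D * cexp (φ * I) - D * φ * I) *
        (f (z * cexp (φ * I)) - f z) := by
  have hc : Continuous fun φ : ℝ => cexp (D * cexp (φ * I) - D * φ * I) := by fun_prop
  have hc2 : Continuous fun φ : ℝ => f (z * cexp (φ * I)) := hf.continuous.comp (by fun_prop)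
  have h1 : ∫ φ in (-Real.pi)..Real.pi, cexp (D * cexp (φ * I) - D * φ * I) *
        (f (z * cexp (φ * I)) - f z) =
      (∫ φ in (-Real.pi)..Real.pi, cexp (D * cexp (φ * I) - D * φ * I) * f (z * cexp (φ * I))) -
        (∫ φ in (-Real.pi)..Real.pi, cexp (D * cexp (φ * I) - D * φ * I)) * f z := by
    rw [← intervalIntegral.integral_mul_const, ← intervalIntegral.integral_sub]
    · refine intervalIntegral.integral_congr fun φ _ => ?_
      ring
    · exact (hc.mul hc2).intervalIntegrable _ _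
    · exact (hc.mul continuous_const).intervalIntegrable _ _
  rw [h1, mul_sub, ← c1 hf hD z, ← mul_assoc, ← c4 hD, one_mul]

/-- elementary bounds -/
lemma x_exp (x : ℝ) : x * Real.exp (-(x ^ 2 / 5)) ≤ 3 * Real.exp (-(x ^ 2 / 10)) := by
  have h1 : x ≤ 3 * Real.exp (x ^ 2 / 10) := by
    have := Real.add_one_le_exp (x ^ 2 / 10)
    nlinarith [sq_nonneg (x - 5)]
  calc x * Real.exp (-(x ^ 2 / 5)) ≤ 3 * Real.exp (x ^ 2 / 10) * Real.exp (-(x ^ 2 / 5)) :=
        mul_le_mul_of_nonneg_right h1 (Real.exp_pos _).le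
    _ = _ := by
        rw [mul_assoc, ← Real.exp_add]
        congr 2
        ring

lemma sqrt_exp {y : ℝ} (hy : 0 ≤ y) : Real.sqrt y ≤ Real.exp y := by
  have h1 := Real.add_one_le_exp y
  have h2 : Real.sqrt y ≤ y + 1 := by
    rw [Real.sqrt_le_left (by linarith)]
    nlinarith
  linarith

/-- the whole estimate for given parameters -/
lemma main_le {C τ : ℝ} (hg : ∀ v : ℂ, ‖v‖ ≤ 2 * τ →
      ‖fx v‖ ≤ Mf τ * Real.exp (C * Real.log τ * (1 + ‖v - τ * I‖)))
    (hC : 0 ≤ C) (hτ : 1 ≤ τ) {R r η : ℝ} (hr : 0 < r) (hR : 0 ≤ R)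
    (hτR : 2 * R < τ) (hb : C * Real.log τ ≤ r / 40 * τ ^ η) {D : ℕ} (hD : τ ^ (2 + η) ≤ (D : ℝ))
    {ζ : ℂ} (hζ : ‖ζ‖ ≤ R) {S : ℝ} (hS : ∀ ζ' : ℂ, ‖ζ' - ζ‖ ≤ r → ‖Ph τ ζ'‖ ≤ S) :
    ‖PD D FF (pt τ ζ) - Ph τ ζ‖ ≤ 108 / r * τ ^ (-(η / 2)) * S +
      378 / r * τ * Mf τ * Real.exp (C * Real.log τ * (1 + 2 * R)) *
        Real.exp (-(r ^ 2 / 40 * τ ^ η)) := by
  have hτ0 : 0 < τ := by linarith
  have hS0 : 0 ≤ S := (norm_nonneg _).trans (hS ζ (by simp [hr.le]))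
  have hDr : 0 < (D : ℝ) := lt_of_lt_of_le (Real.rpow_pos_of_pos hτ0 _) hD
  have hD1 : 1 ≤ D := by
    have : 0 < D := by exact_mod_cast hDr
    omega
  have hM := Mf_nonneg τ
  have hlog : 0 ≤ Real.log τ := Real.log_nonneg hτ
  obtain ⟨hz1, hz2⟩ := norm_pt hτ0 hτR hζ
  set z := pt τ ζ with hz
  have hτη : 0 < τ ^ η := Real.rpow_pos_of_pos hτ0 _
  have hD2 : τ ^ 2 * τ ^ η ≤ (D : ℝ) := by
    rw [Real.rpow_add hτ0] at hD
    have : τ ^ (2 : ℝ) = τ ^ 2 := by norm_cast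
    rwa [this] at hD
  set B : ℝ := 54 / r * τ * Mf τ * Real.exp (C * Real.log τ * (1 + 2 * R)) *
    Real.exp (-(r ^ 2 / 40 * τ ^ η)) with hB
  have hB0 : 0 ≤ B := by positivity
  set A : ℝ := 18 * S * τ / r with hA
  have hA0 : 0 ≤ A := by positivity
  -- pointwise bound
  have key : ∀ φ : ℝ, |φ| ≤ Real.pi →
      ‖((D.factorial / (2 * Real.pi * D ^ D) : ℝ) : ℂ) * (cexp (D * cexp (φ * I) - D * φ * I) *
        (FF (z * cexp (φ * I)) - FF z))‖ ≤ A * Real.exp (-(D / 10) * φ ^ 2) + B := by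
    intro φ hφ
    have hc2 := c2 hD1 hφ
    have hK : 0 ≤ (D.factorial / (2 * Real.pi * D ^ D) : ℝ) := by positivity
    have e0 : ‖((D.factorial / (2 * Real.pi * D ^ D) : ℝ) : ℂ) *
        (cexp (D * cexp (φ * I) - D * φ * I) * (FF (z * cexp (φ * I)) - FF z))‖ =
        ((D.factorial / (2 * Real.pi * D ^ D) : ℝ) * ‖cexp (D * cexp (φ * I) - D * φ * I)‖) *
        ‖FF (z * cexp (φ * I)) - FF z‖ := by
      rw [norm_mul, norm_mul, Complex.norm_real, Real.norm_of_nonneg hK]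
      ring
    rw [e0]
    rcases le_or_gt (τ * |φ|) (r / 2) with hn | hf
    · -- near
      set ζ' : ℂ := (z * cexp (φ * I) + τ ^ 2) / (2 * τ) with hζ'
      have hτc : (τ : ℂ) ≠ 0 := by exact_mod_cast hτ0.ne'
      have h1 : pt τ ζ' = z * cexp (φ * I) := by
        rw [pt, hζ']
        push_cast
        field_simp
        ring
      have h2 : ζ' - ζ = z * (cexp (φ * I) - 1) / (2 * τ) := by
        rw [hζ', hz, pt]
        push_cast
        field_simp
        ring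
      have h3 : ‖ζ' - ζ‖ ≤ τ * |φ| := by
        rw [h2, norm_div, norm_mul]
        have h4 : ‖(2 * τ : ℂ)‖ = 2 * τ := by
          rw [norm_mul, Complex.norm_real, Real.norm_of_nonneg hτ0.le]
          norm_num
        rw [h4, div_le_iff₀ (by positivity)]
        have h5 := norm_e_sub φ
        calc ‖z‖ * ‖cexp (φ * I) - 1‖ ≤ (2 * τ ^ 2) * |φ| :=
              mul_le_mul hz1 h5 (norm_nonneg _) (by positivity)
          _ = _ := by ring
      have h6 := near_le hr hS (h3.trans hn)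
      rw [Ph_pt, Ph_pt, h1, ← hz] at h6
      have h7 : ‖FF (z * cexp (φ * I)) - FF z‖ ≤ 2 * S / r * (τ * |φ|) :=
        h6.trans (mul_le_mul_of_nonneg_left h3 (by positivity))
      have h8 : 3 * Real.sqrt D * Real.exp (-(D * φ ^ 2 / 5)) * (2 * S / r * (τ * |φ|)) ≤
          A * Real.exp (-(D / 10) * φ ^ 2) := by
        have h9 := x_exp (Real.sqrt D * |φ|)
        have e1 : (Real.sqrt D * |φ|) ^ 2 = D * φ ^ 2 := by
          rw [mul_pow, Real.sq_sqrt hDr.le, sq_abs]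
        rw [e1] at h9
        have e2 : -(D * φ ^ 2 / 10) = -(D / 10) * φ ^ 2 := by ring
        rw [e2] at h9
        calc 3 * Real.sqrt D * Real.exp (-(D * φ ^ 2 / 5)) * (2 * S / r * (τ * |φ|))
            = (6 * S * τ / r) * (Real.sqrt D * |φ| * Real.exp (-(D * φ ^ 2 / 5))) := by ring
          _ ≤ (6 * S * τ / r) * (3 * Real.exp (-(D / 10) * φ ^ 2)) :=
              mul_le_mul_of_nonneg_left h9 (by positivity)
          _ = _ := by rw [hA]; ring
      calc _ ≤ 3 * Real.sqrt D * Real.exp (-(D * φ ^ 2 / 5)) * (2 * S / r * (τ * |φ|)) :=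
            mul_le_mul hc2 h7 (norm_nonneg _) (by positivity)
        _ ≤ _ := h8.trans (le_add_of_nonneg_right hB0)
    · -- far
      have hφ0 : 0 < |φ| := by
        by_contra hcon
        push Not at hcon
        have : τ * |φ| ≤ 0 := mul_nonpos_of_nonneg_of_nonpos hτ0.le hcon
        linarith
      have h1 := far_le hg hC hτ hτR hζ φ
      have h2 := far_le hg hC hτ hτR hζ 0
      rw [ofReal_zero, zero_mul, Complex.exp_zero, mul_one, abs_zero, mul_zero, add_zero] at h2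
      rw [← hz] at h1 h2
      set E1 : ℝ := Real.exp (C * Real.log τ * (1 + 2 * R)) with hE1
      have e1 : Real.exp (C * Real.log τ * (1 + 2 * R + τ * |φ|)) =
          E1 * Real.exp (C * Real.log τ * (τ * |φ|)) := by
        rw [hE1, ← Real.exp_add]
        congr 1
        ring
      have h3 : ‖FF (z * cexp (φ * I)) - FF z‖ ≤
          2 * Mf τ * E1 * Real.exp (C * Real.log τ * (τ * |φ|)) := by
        refine (norm_sub_le _ _).trans ?_
        rw [e1] at h1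
        have h4 : Mf τ * E1 ≤ Mf τ * (E1 * Real.exp (C * Real.log τ * (τ * |φ|))) := by
          refine mul_le_mul_of_nonneg_left ?_ hM
          refine le_mul_of_one_le_right (Real.exp_pos _).le ?_
          exact Real.one_le_exp (by positivity)
        linarith
      -- the quadratic exponent
      have hq1 : r ^ 2 / 4 * τ ^ η ≤ D * φ ^ 2 := by
        have h4 : (r / 2) ^ 2 ≤ (τ * |φ|) ^ 2 := by gcongr
        rw [mul_pow, sq_abs] at h4
        calc r ^ 2 / 4 * τ ^ η ≤ (τ ^ 2 * φ ^ 2) * τ ^ η := by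
              refine mul_le_mul_of_nonneg_right ?_ hτη.le
              linarith
          _ = (τ ^ 2 * τ ^ η) * φ ^ 2 := by ring
          _ ≤ D * φ ^ 2 := mul_le_mul_of_nonneg_right hD2 (sq_nonneg _)
      have hq2 : r / 2 * τ ^ η * (τ * |φ|) ≤ D * φ ^ 2 := by
        calc r / 2 * τ ^ η * (τ * |φ|) ≤ (τ * |φ|) * τ ^ η * (τ * |φ|) := by gcongr
          _ = (τ ^ 2 * τ ^ η) * |φ| ^ 2 := by ring
          _ = (τ ^ 2 * τ ^ η) * φ ^ 2 := by rw [sq_abs]
          _ ≤ D * φ ^ 2 := mul_le_mul_of_nonneg_right hD2 (sq_nonneg _)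
      have hq3 : C * Real.log τ * (τ * |φ|) ≤ D * φ ^ 2 / 20 := by
        calc C * Real.log τ * (τ * |φ|) ≤ r / 40 * τ ^ η * (τ * |φ|) := by gcongr
          _ = (r / 2 * τ ^ η * (τ * |φ|)) / 20 := by ring
          _ ≤ _ := by gcongr
      have hq4 : Real.sqrt D * Real.exp (-(D * φ ^ 2 / 20)) ≤ 9 * τ / r := by
        set y : ℝ := D * r ^ 2 / (80 * τ ^ 2) with hy
        have hy0 : 0 ≤ y := by positivity
        have h4 : y ≤ D * φ ^ 2 / 20 := by
          have h5 : (r / 2) ^ 2 ≤ (τ * |φ|) ^ 2 := by gcongr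
          rw [mul_pow, sq_abs] at h5
          rw [hy, div_le_div_iff₀ (by positivity) (by norm_num)]
          nlinarith
        have h5 : Real.sqrt D ≤ 9 * τ / r * Real.sqrt y := by
          have e2 : (D : ℝ) = (80 * τ ^ 2 / r ^ 2) * y := by
            rw [hy]
            field_simp
          rw [e2, Real.sqrt_mul (by positivity)]
          refine mul_le_mul_of_nonneg_right ?_ (Real.sqrt_nonneg _)
          rw [Real.sqrt_le_left (by positivity)]
          rw [div_pow, mul_pow]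
          gcongr
          norm_num
        have h6 := sqrt_exp hy0
        calc Real.sqrt D * Real.exp (-(D * φ ^ 2 / 20))
            ≤ (9 * τ / r * Real.exp y) * Real.exp (-y) := by
              refine mul_le_mul (h5.trans (mul_le_mul_of_nonneg_left h6 (by positivity))) ?_
                (Real.exp_pos _).le (by positivity)
              exact Real.exp_le_exp.2 (by linarith)
          _ = 9 * τ / r := by rw [mul_assoc, ← Real.exp_add, add_neg_cancel, Real.exp_zero, mul_one]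
      have h5 : 3 * Real.sqrt D * Real.exp (-(D * φ ^ 2 / 5)) *
          (2 * Mf τ * E1 * Real.exp (C * Real.log τ * (τ * |φ|))) ≤ B := by
        have e2 : Real.exp (-(D * φ ^ 2 / 5)) = Real.exp (-(D * φ ^ 2 / 20)) *
            Real.exp (-(D * φ ^ 2 / 20)) * Real.exp (-(D * φ ^ 2 / 10)) := by
          rw [← Real.exp_add, ← Real.exp_add]
          congr 1
          ring
        have h6 : Real.exp (-(D * φ ^ 2 / 20)) * Real.exp (C * Real.log τ * (τ * |φ|)) ≤ 1 := by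
          rw [← Real.exp_add, Real.exp_le_one_iff]
          linarith
        have h7 : Real.exp (-(D * φ ^ 2 / 10)) ≤ Real.exp (-(r ^ 2 / 40 * τ ^ η)) :=
          Real.exp_le_exp.2 (by linarith)
        calc 3 * Real.sqrt D * Real.exp (-(D * φ ^ 2 / 5)) *
          (2 * Mf τ * E1 * Real.exp (C * Real.log τ * (τ * |φ|)))
            = (6 * Mf τ * E1) * ((Real.sqrt D * Real.exp (-(D * φ ^ 2 / 20))) *
              (Real.exp (-(D * φ ^ 2 / 20)) * Real.exp (C * Real.log τ * (τ * |φ|))) *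
              Real.exp (-(D * φ ^ 2 / 10))) := by rw [e2]; ring
          _ ≤ (6 * Mf τ * E1) * ((9 * τ / r) * 1 * Real.exp (-(r ^ 2 / 40 * τ ^ η))) := by
              gcongr
          _ = B := by rw [hB]; ring
      calc _ ≤ 3 * Real.sqrt D * Real.exp (-(D * φ ^ 2 / 5)) *
          (2 * Mf τ * E1 * Real.exp (C * Real.log τ * (τ * |φ|))) :=
            mul_le_mul hc2 h3 (norm_nonneg _) (by positivity)
        _ ≤ B := h5
        _ ≤ _ := le_add_of_nonneg_left (by positivity)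
  -- integrate
  rw [Ph_pt, ← hz, diff_eq FF_diff hD1, ← intervalIntegral.integral_const_mul]
  have hpi := Real.pi_pos
  have hgi : Continuous fun φ : ℝ => A * Real.exp (-(D / 10) * φ ^ 2) + B := by fun_prop
  have h1 := intervalIntegral.norm_integral_le_of_norm_le (μ := volume) (a := -Real.pi)
    (b := Real.pi) (f := fun φ : ℝ => ((D.factorial / (2 * Real.pi * D ^ D) : ℝ) : ℂ) *
      (cexp (D * cexp (φ * I) - D * φ * I) * (FF (z * cexp (φ * I)) - FF z)))
    (g := fun φ : ℝ => A * Real.exp (-(D / 10) * φ ^ 2) + B) (by linarith)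
    (Filter.Eventually.of_forall fun φ hφ => key φ (abs_le.2 ⟨hφ.1.le, hφ.2⟩))
    (hgi.intervalIntegrable _ _)
  refine h1.trans ?_
  have hgc : Continuous fun φ : ℝ => A * Real.exp (-(D / 10) * φ ^ 2) := by fun_prop
  rw [intervalIntegral.integral_add (hgc.intervalIntegrable _ _)
    (continuous_const.intervalIntegrable _ _), intervalIntegral.integral_const_mul,
    intervalIntegral.integral_const]
  have h2 : ∫ φ in (-Real.pi)..Real.pi, Real.exp (-(D / 10) * φ ^ 2) ≤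
      Real.sqrt (Real.pi / (D / 10)) := by
    rw [← integral_gaussian (D / 10 : ℝ), intervalIntegral.integral_of_le (by linarith)]
    refine setIntegral_le_integral (integrable_exp_neg_mul_sq (by positivity)) ?_
    exact Filter.Eventually.of_forall fun φ => (Real.exp_pos _).le
  have h3 : Real.sqrt (Real.pi / (D / 10)) ≤ 6 * (τ ^ (-1 : ℝ) * τ ^ (-(η / 2))) := by
    rw [Real.sqrt_le_left (by positivity), div_le_iff₀ (by positivity)]
    have e1 : (6 * (τ ^ (-1 : ℝ) * τ ^ (-(η / 2)))) ^ 2 = 36 * (τ ^ 2 * τ ^ η)⁻¹ := by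
      have a1 : (τ ^ (-1 : ℝ)) ^ 2 = (τ ^ 2)⁻¹ := by
        rw [Real.rpow_neg_one, inv_pow]
      have a2 : (τ ^ (-(η / 2))) ^ 2 = (τ ^ η)⁻¹ := by
        rw [← Real.rpow_natCast, ← Real.rpow_mul hτ0.le, ← Real.rpow_neg hτ0.le]
        congr 1
        push_cast
        ring
      rw [mul_pow, mul_pow, a1, a2, mul_inv]
      ring
    rw [e1]
    have h4 : 1 ≤ (τ ^ 2 * τ ^ η)⁻¹ * D := by
      rw [inv_mul_eq_div, le_div_iff₀ (by positivity), one_mul]
      exact hD2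
    have := Real.pi_lt_d2
    nlinarith
  have h4 : A * ∫ φ in (-Real.pi)..Real.pi, Real.exp (-(D / 10) * φ ^ 2) ≤
      108 / r * τ ^ (-(η / 2)) * S := by
    calc A * ∫ φ in (-Real.pi)..Real.pi, Real.exp (-(D / 10) * φ ^ 2)
        ≤ A * (6 * (τ ^ (-1 : ℝ) * τ ^ (-(η / 2)))) :=
          mul_le_mul_of_nonneg_left (h2.trans h3) hA0
      _ = _ := by
          rw [hA, Real.rpow_neg_one]
          field_simp
          ring
  have h5 : (Real.pi - -Real.pi) • B ≤ 378 / r * τ * Mf τ *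
      Real.exp (C * Real.log τ * (1 + 2 * R)) * Real.exp (-(r ^ 2 / 40 * τ ^ η)) := by
    have e1 : 378 / r * τ * Mf τ * Real.exp (C * Real.log τ * (1 + 2 * R)) *
      Real.exp (-(r ^ 2 / 40 * τ ^ η)) = 7 * B := by rw [hB]; ring
    rw [e1, smul_eq_mul]
    refine mul_le_mul_of_nonneg_right ?_ hB0
    have := Real.pi_lt_d2
    linarith
  linarith

/-- large `τ` -/
lemma large (C R r η : ℝ) (hr : 0 < r) (hη : 0 < η) :
    ∀ᶠ τ : ℝ in atTop, C * Real.log τ ≤ r / 40 * τ ^ η ∧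
      378 / r * τ * Real.exp (C * Real.log τ * (1 + 2 * R)) *
        Real.exp (-(r ^ 2 / 40 * τ ^ η)) ≤ Real.exp (-(τ ^ (η / 2))) := by
  have h1 : ∀ a b : ℝ, 0 < b → ∀ᶠ τ : ℝ in atTop, a * Real.log τ ≤ b * τ ^ η := by
    intro a b hb
    have h2 := (isLittleO_log_rpow_atTop hη).const_mul_left a
    have h3 := h2.def hb
    filter_upwards [h3, eventually_gt_atTop (0 : ℝ)] with τ h4 h5
    refine (le_abs_self _).trans (h4.trans (le_of_eq ?_))
    rw [Real.norm_of_nonneg (Real.rpow_nonneg h5.le _)]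
  have h6 : ∀ᶠ τ : ℝ in atTop, τ ^ (η / 2) ≤ r ^ 2 / 160 * τ ^ η := by
    have h7 : Tendsto (fun τ : ℝ => τ ^ (η / 2)) atTop atTop :=
      tendsto_rpow_atTop (by positivity)
    filter_upwards [h7.eventually_ge_atTop (160 / r ^ 2), eventually_gt_atTop (0 : ℝ)] with τ h8 h9
    have e : τ ^ η = τ ^ (η / 2) * τ ^ (η / 2) := by
      rw [← Real.rpow_add h9]
      congr 1
      ring
    rw [e]
    rw [div_le_iff₀ (by positivity)] at h8
    have h10 : 0 < τ ^ (η / 2) := Real.rpow_pos_of_pos h9 _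
    nlinarith
  have h11 : ∀ᶠ τ : ℝ in atTop, Real.log (378 / r) ≤ r ^ 2 / 160 * τ ^ η := by
    have h7 : Tendsto (fun τ : ℝ => r ^ 2 / 160 * τ ^ η) atTop atTop :=
      (tendsto_rpow_atTop hη).const_mul_atTop (by positivity)
    exact h7.eventually_ge_atTop _
  filter_upwards [h1 C (r / 40) (by positivity), h1 (1 + C * (1 + 2 * R)) (r ^ 2 / 80) (by positivity),
    h6, h11, eventually_gt_atTop (0 : ℝ)] with τ a1 a2 a3 a4 a5
  refine ⟨a1, ?_⟩
  have e1 : 378 / r * τ = Real.exp (Real.log (378 / r) + Real.log τ) := by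
    rw [Real.exp_add, Real.exp_log (by positivity), Real.exp_log a5]
  rw [e1, ← Real.exp_add, ← Real.exp_add]
  refine Real.exp_le_exp.2 ?_
  nlinarith

theorem smooth (hg : Growth) {η R r : ℝ} (hη : 0 < η) (hη1 : η ≤ 1) (hR : 1 ≤ R) (hr : 0 < r)
    (hr1 : r ≤ 1) :
    ∃ C τ0 : ℝ, 0 ≤ C ∧ 2 ≤ τ0 ∧ ∀ τ : ℝ, τ0 ≤ τ → ∀ D : ℕ, τ ^ (2 + η) ≤ (D : ℝ) →
      ∀ ζ : ℂ, ‖ζ‖ ≤ R → ∀ S : ℝ, (∀ ζ' : ℂ, ‖ζ' - ζ‖ ≤ r → ‖Ph τ ζ'‖ ≤ S) →
      ‖PD D FF (((-(τ ^ 2) : ℝ) : ℂ) + 2 * τ * ζ) - Ph τ ζ‖ ≤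
        C * τ ^ (-(η / 2)) * S + Mf τ * Real.exp (-(τ ^ (η / 2))) := by
  obtain ⟨C, τ1, hC, hτ1, hgr⟩ := hg
  obtain ⟨τ2, h2⟩ := eventually_atTop.1 (large C R r η hr hη)
  refine ⟨108 / r, max (max τ1 τ2) (2 * R + 1), by positivity,
    le_trans hτ1 ((le_max_left _ _).trans (le_max_left _ _)), ?_⟩
  intro τ hτ D hD ζ hζ S hS
  simp only [max_le_iff] at hτ
  obtain ⟨⟨b1, b2⟩, b3⟩ := hτ
  obtain ⟨c1', c2'⟩ := h2 τ b2
  have h3 := main_le (hgr τ b1) hC (by linarith) hr (by linarith) (by linarith) c1' hD hζ hS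
  refine h3.trans ?_
  have h4 := mul_le_mul_of_nonneg_left c2' (Mf_nonneg τ)
  have e : Mf τ * (378 / r * τ * Real.exp (C * Real.log τ * (1 + 2 * R)) *
        Real.exp (-(r ^ 2 / 40 * τ ^ η))) =
      378 / r * τ * Mf τ * Real.exp (C * Real.log τ * (1 + 2 * R)) *
        Real.exp (-(r ^ 2 / 40 * τ ^ η)) := by ring
  rw [e] at h4
  linarith

end Pool.Agent.Helper68.Smooth
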